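import Pool.Agent.helper80.T1.SpecO
import Pool.Agent.helper22.MS.GKF
import Pool.Agent.helper38.MS.OI2
import Pool.Agent.helper54.MS.OSC

/-!
# Row t1:OKB of MP_07c750_an (the kernel between narrow and wide packets, effective; adaptation of helper54/MS/OSC.lean)
-/

set_option autoImplicit false

open scoped MatrixGroups ContDiff Topology UpperHalfPlane ComplexConjugate
open UpperHalfPlane MeasureTheory Filter Set

namespace Pool.Agent.T1

open Pool.Agent.RS Pool.Agent.MS Pool.Agent.HV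

theorem OKB_core {β0 α0 β α : ℝ → ℝ} {B M : ℝ} (hOI2 : OI2_stmt) (hGKF : GKF_stmt)
    (hβ0 : SB (1 / 4) β0) (hα0 : SB (1 / 4) α0) (hβ : SB (1 / 4) β) (hα : SB (1 / 4) α)
    (hB : 0 ≤ B) (hM : 0 < M)
    (hbβ : ∀ x, |β0 x| ≤ B ∧ |deriv β0 x| ≤ B ∧ |deriv (deriv β0) x| ≤ B)
    (hbα : ∀ x, |α0 x| ≤ B ∧ |deriv α0 x| ≤ B ∧ |deriv (deriv α0) x| ≤ B)
    (hk : ∀ k : SL(2, ℝ), (∀ i j, |k.1 i j| ≤ 3) →
      (∀ x τ : ℝ, 0 < Dk k x τ) ∧ (∀ τ : ℝ, ContDiff ℝ ∞ (fun x => amk (pc β α) k x τ) ∧ ContDiff ℝ ∞ (fun x => Real.log (Dk k x τ))) ∧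
      (∀ x : ℝ, ContDiff ℝ ∞ (fun τ => amk (pc β α) k x τ) ∧ ContDiff ℝ ∞ (fun τ => Real.log (Dk k x τ))) ∧
      ∀ x τ : ℝ, |x| ≤ 1 / 4 → |τ| ≤ 1 / 4 → 1 / 200 ≤ Dk k x τ ∧ Dk k x τ ≤ 60 ∧ ‖amk (pc β α) k x τ‖ ≤ M ∧
        (∀ j : ℕ, 1 ≤ j → j ≤ 2 → ‖iteratedDeriv j (fun x => amk (pc β α) k x τ) x‖ ≤ M ∧ ‖iteratedDeriv j (fun τ => amk (pc β α) k x τ) τ‖ ≤ M) ∧
        (∀ j : ℕ, 1 ≤ j → j ≤ 3 → |iteratedDeriv j (fun x => Real.log (Dk k x τ)) x| ≤ M * |k.1 1 0| ∧ |iteratedDeriv j (fun τ => Real.log (Dk k x τ)) τ| ≤ M) ∧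
        deriv (fun x => Real.log (Dk k x τ)) x = -2 * k.1 1 0 * (k.1 0 0 - k.1 1 0 * x) / Dk k x τ ∧
        deriv (fun τ => Real.log (Dk k x τ)) τ = 2 * k.1 1 0 ^ 2 * Real.exp (2 * τ) / Dk k x τ)
    {T r : ℝ} {k : SL(2, ℝ)} (hT0 : 0 ≤ T) (hr : 1 ≤ r) :
    ‖gk r (pc (st (-T) β0) α0) (pc β α) k‖ ≤ (4 * (B ^ 2 * M + 8 * B ^ 2 * M * (1 + 240 * M) ^ 2 * 240 ^ 2 * 9) + 1) *
      Real.exp (-(T / 2)) / (1 + Real.exp (-T) * r * |k.1 1 0|) ^ 2 := by
  have hT : TB (1 / 4) (pc β α) := CV1_3 (1 / 4) α β hα hβ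
  obtain ⟨K, hKdef⟩ : ∃ K, K = B ^ 2 * M + 8 * B ^ 2 * M * (1 + 240 * M) ^ 2 * 240 ^ 2 * 9 := ⟨_, rfl⟩
  have hK1 : 0 ≤ 8 * B ^ 2 * M * (1 + 240 * M) ^ 2 * 240 ^ 2 := by positivity
  have hK0 : 0 ≤ K := by rw [hKdef]; positivity
  rw [← hKdef]
  obtain ⟨hent, hform⟩ := hGKF β0 α0 β α T r k hβ0 hα0 hβ hα hT0 hr
  by_cases h0 : gk r (pc (st (-T) β0) α0) (pc β α) k = 0
  · rw [h0, norm_zero]
    positivity
  have hE := hent h0
  obtain ⟨hD, hcx, hct, hbox⟩ := hk k hE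
  obtain ⟨ε, hε⟩ : ∃ ε, ε = Real.exp (-T) := ⟨_, rfl⟩
  have hε0 : 0 < ε := by rw [hε]; exact Real.exp_pos _
  have hε1 : ε ≤ 1 := by rw [hε]; exact Real.exp_le_one_iff.2 (by linarith)
  rw [← hε] at hform
  obtain ⟨c, hc⟩ : ∃ c, c = k.1 1 0 := ⟨_, rfl⟩
  obtain ⟨lam, hlam⟩ : ∃ lam, lam = ε * r * |c| := ⟨_, rfl⟩
  have hlam0 : 0 ≤ lam := by rw [hlam]; positivity
  obtain ⟨G, hG⟩ : ∃ G : ℝ → ℝ → ℂ, G = fun x τ => ((β0 x * α0 τ : ℝ) : ℂ) * amk (pc β α) k (ε * x) τ *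
    Complex.exp (((r * Real.log (Dk k (ε * x) τ) : ℝ) : ℂ) * Complex.I) := ⟨_, rfl⟩
  have hform' : gk r (pc (st (-T) β0) α0) (pc β α) k = ((Real.exp (-(T / 2)) : ℝ) : ℂ) * ∫ τ : ℝ, ∫ x : ℝ, G x τ := by
    rw [hform, hG]
  have hεx : ∀ x : ℝ, |x| ≤ 1 / 4 → |ε * x| ≤ 1 / 4 := by
    intro x hx
    rw [abs_mul, abs_of_pos hε0]
    calc ε * |x| ≤ 1 * |x| := mul_le_mul_of_nonneg_right hε1 (abs_nonneg _)
      _ ≤ 1 / 4 := by linarith
  have hGx : ∀ τ x, 1 / 4 ≤ |x| → G x τ = 0 := by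
    intro τ x hx
    rw [hG]
    simp only
    rw [OSC_zero hβ0 hx]
    simp
  have hGτ : ∀ x τ, 1 / 4 ≤ |τ| → G x τ = 0 := by
    intro x τ hτ
    rw [hG]
    simp only
    rw [OSC_zero hα0 hτ]
    simp
  have hGb : ∀ x τ, |x| ≤ 1 / 4 → |τ| ≤ 1 / 4 → ‖G x τ‖ ≤ B ^ 2 * M := by
    intro x τ hx hτ
    rw [hG]
    simp only
    rw [norm_mul, Complex.norm_exp_ofReal_mul_I, mul_one, norm_mul, Complex.norm_real, Real.norm_eq_abs, abs_mul]
    have h1 := (hbox (ε * x) τ (hεx x hx) hτ).2.2.1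
    calc |β0 x| * |α0 τ| * ‖amk (pc β α) k (ε * x) τ‖ ≤ B * B * M := by
          gcongr
          · exact (hbβ x).1
          · exact (hbα τ).1
      _ = B ^ 2 * M := by ring
  have hinner : ∀ τ, 1 / 4 ≤ |τ| → ∫ x, G x τ = 0 := by
    intro τ hτ
    have : (fun x => G x τ) = fun _ => 0 := funext fun x => hGτ x τ hτ
    rw [this, integral_zero]
  have hinner' : ∀ x, 1 / 4 ≤ |x| → ∫ τ, G x τ = 0 := by
    intro x hx
    have : (fun τ => G x τ) = fun _ => 0 := funext fun τ => hGx τ x hx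
    rw [this, integral_zero]
  -- the trivial bound
  have hJ0 : ‖∫ τ : ℝ, ∫ x : ℝ, G x τ‖ ≤ B ^ 2 * M := by
    have hBM : 0 ≤ B ^ 2 * M := by positivity
    have := OSC_out (fun τ => ∫ x : ℝ, G x τ) hinner (B ^ 2 * M / 2) (fun τ hτ => OSC_out (fun x => G x τ) (hGx τ) _ (fun x hx => hGb x τ hx hτ))
    refine this.trans ?_
    linarith
  -- the bound for large `lam`
  have hJ1 : 1 < lam → ‖∫ τ : ℝ, ∫ x : ℝ, G x τ‖ ≤ K / lam ^ 2 := by
    intro hl
    have hl0 : 0 < lam := by linarith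
    by_cases hA : ∀ x : ℝ, |x| ≤ 1 / 4 → 1 / 8 ≤ |k.1 0 0 - c * x|
    · have hin : ∀ τ, |τ| ≤ 1 / 4 → ‖∫ x : ℝ, G x τ‖ ≤ 8 * B ^ 2 * M * (1 + 240 * M) ^ 2 / (lam / 240) ^ 2 := by
        intro τ hτ
        rw [OSC_int _ (hGx τ), hG]
        refine OSC_W hOI2 hβ0 hB hbβ (hbα τ).1 hε0.le hε1 (by linarith) (g := fun y => amk (pc β α) k y τ) (hcx τ).1
          (h := fun y => Real.log (Dk k y τ)) (hcx τ).2 hM.le ?_ (by positivity) (by positivity) ?_
        · intro y hy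
          obtain ⟨-, -, b3, b4, -, -, -⟩ := hbox y τ hy hτ
          refine ⟨b3, ?_, (b4 2 (by norm_num) (by norm_num)).1⟩
          have := (b4 1 (by norm_num) (by norm_num)).1
          rwa [iteratedDeriv_one] at this
        · intro y hy
          obtain ⟨b1, b2, -, -, b5, b6, -⟩ := hbox y τ hy hτ
          rw [← hc] at b5 b6
          refine ⟨?_, ?_, ?_⟩
          · rw [b6]
            have e : r * ε * (-2 * c * (k.1 0 0 - c * y) / Dk k y τ) = -(2 * (ε * r) * c * (k.1 0 0 - c * y) / Dk k y τ) := by ring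
            rw [e, abs_neg, abs_div, abs_mul, abs_mul, abs_of_pos (hD y τ), abs_of_pos (by positivity : 0 < 2 * (ε * r)),
              le_div_iff₀ (hD y τ), hlam]
            have h1 := hA y hy
            calc ε * r * |c| / 240 * Dk k y τ ≤ ε * r * |c| / 240 * 60 := by gcongr
              _ = 2 * (ε * r) * |c| * (1 / 8) := by ring
              _ ≤ 2 * (ε * r) * |c| * |k.1 0 0 - c * y| := by gcongr
          · have := (b5 2 (by norm_num) (by norm_num)).1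
            calc r * ε * |iteratedDeriv 2 (fun y => Real.log (Dk k y τ)) y| ≤ r * ε * (M * |c|) := by gcongr
              _ = 240 * M * (lam / 240) := by rw [hlam]; ring
          · have := (b5 3 (by norm_num) (by norm_num)).1
            calc r * ε * |iteratedDeriv 3 (fun y => Real.log (Dk k y τ)) y| ≤ r * ε * (M * |c|) := by gcongr
              _ = 240 * M * (lam / 240) := by rw [hlam]; ring
      have := OSC_out (fun τ => ∫ x : ℝ, G x τ) hinner _ hin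
      refine this.trans ?_
      have e : 8 * B ^ 2 * M * (1 + 240 * M) ^ 2 / (lam / 240) ^ 2 / 2 = 8 * B ^ 2 * M * (1 + 240 * M) ^ 2 * 240 ^ 2 / 2 / lam ^ 2 := by
        field_simp
      rw [e]
      gcongr
      rw [hKdef]
      have : 0 ≤ B ^ 2 * M := by positivity
      linarith
    · push Not at hA
      obtain ⟨x0, hx0, hx0'⟩ := hA
      have hcb : 1 / 2 ≤ |c| := by
        by_contra hlt
        push Not at hlt
        refine h0 ?_
        have hz : ∀ τ x, G x τ = 0 := by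
          intro τ x
          by_cases hx : 1 / 4 ≤ |x|
          · exact hGx τ x hx
          by_cases hτ : 1 / 4 ≤ |τ|
          · exact hGτ x τ hτ
          rw [hG]
          simp only
          rw [hc] at hx0' hlt
          rw [OSC_c hT k hD x0 hx0 hx0' hlt (ε * x) τ (hεx x (by linarith)) (by linarith)]
          simp
        rw [hform']
        simp [hz]
      have hcont : Continuous (Function.uncurry fun τ x => G x τ) := by
        rw [hG]
        have hDc : Continuous fun p : ℝ × ℝ => Dk k (ε * p.2) p.1 := by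
          unfold Dk
          fun_prop
        have h1 : Continuous fun p : ℝ × ℝ => amk (pc β α) k (ε * p.2) p.1 := by
          unfold amk
          refine Continuous.mul ?_ ?_
          · refine (CV1_cont (1 / 4) _ hT).comp ?_
            refine (continuous_const_smul _).comp ?_
            exact CV1_ptcont.comp (Continuous.prodMk (by fun_prop) (by fun_prop))
          · refine Complex.continuous_ofReal.comp ?_
            exact hDc.rpow_const fun p => Or.inl (hD _ _).ne'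
        have h2 : Continuous fun p : ℝ × ℝ => Real.log (Dk k (ε * p.2) p.1) := hDc.log fun p => (hD _ _).ne'
        have h3 := hβ0.1.continuous
        have h4 := hα0.1.continuous
        show Continuous fun p : ℝ × ℝ => ((β0 p.2 * α0 p.1 : ℝ) : ℂ) * amk (pc β α) k (ε * p.2) p.1 *
          Complex.exp (((r * Real.log (Dk k (ε * p.2) p.1) : ℝ) : ℂ) * Complex.I)
        fun_prop
      have hsupp : HasCompactSupport (Function.uncurry fun τ x => G x τ) := by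
        refine HasCompactSupport.intro ((isCompact_Icc (a := (-(1 / 4) : ℝ)) (b := 1 / 4)).prod (isCompact_Icc (a := (-(1 / 4) : ℝ)) (b := 1 / 4))) ?_
        rintro ⟨τ, x⟩ hp
        show G x τ = 0
        by_cases hx : 1 / 4 ≤ |x|
        · exact hGx τ x hx
        by_cases hτ : 1 / 4 ≤ |τ|
        · exact hGτ x τ hτ
        refine absurd ?_ hp
        exact ⟨abs_le.1 (by linarith), abs_le.1 (by linarith)⟩
      have hswap : ∫ τ : ℝ, ∫ x : ℝ, G x τ = ∫ x : ℝ, ∫ τ : ℝ, G x τ :=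
        integral_integral_swap (hcont.integrable_of_hasCompactSupport hsupp)
      rw [hswap]
      have hin : ∀ x, |x| ≤ 1 / 4 → ‖∫ τ : ℝ, G x τ‖ ≤ 8 * B ^ 2 * M * (1 + 200 * M) ^ 2 / (r / 200) ^ 2 := by
        intro x hx
        rw [OSC_int _ (hGτ x), hG]
        have hW := OSC_W hOI2 hα0 hB hbα (hbβ x).1 zero_le_one le_rfl (by linarith : 0 ≤ r) (g := fun τ => amk (pc β α) k (ε * x) τ) (hct _).1
          (h := fun τ => Real.log (Dk k (ε * x) τ)) (hct _).2 hM.le (m := r / 200) (L := 200 * M) ?_ (by positivity) (by positivity) ?_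
        · refine le_trans (le_of_eq ?_) hW
          congr 1
          refine intervalIntegral.integral_congr fun τ _ => ?_
          simp only [one_mul]
          rw [mul_comm (β0 x) (α0 τ)]
        · intro y hy
          obtain ⟨-, -, b3, b4, -, -, -⟩ := hbox (ε * x) y (hεx x hx) hy
          refine ⟨b3, ?_, (b4 2 (by norm_num) (by norm_num)).2⟩
          have := (b4 1 (by norm_num) (by norm_num)).2
          rwa [iteratedDeriv_one] at this
        · intro y hy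
          obtain ⟨b1, b2, -, -, b5, -, b7⟩ := hbox (ε * x) y (hεx x hx) hy
          rw [← hc] at b7
          refine ⟨?_, ?_, ?_⟩
          · rw [b7, mul_one, abs_of_nonneg (by have := hD (ε * x) y; positivity), ← mul_div_assoc, le_div_iff₀ (hD _ _)]
            have h1 : 1 / 4 ≤ c ^ 2 := by
              rw [← sq_abs]
              nlinarith
            have h2 : 0.606 ≤ Real.exp (2 * y) := by
              refine OSC_exp'.le.trans (Real.exp_le_exp.2 ?_)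
              obtain ⟨h4, h5⟩ := abs_le.1 hy
              linarith
            have h3 : 1 / 4 * 0.606 ≤ c ^ 2 * Real.exp (2 * y) := mul_le_mul h1 h2 (by norm_num) (by positivity)
            have h4 : r / 200 * Dk k (ε * x) y ≤ r / 200 * 60 := by gcongr
            norm_num at h3
            nlinarith
          · have := (b5 2 (by norm_num) (by norm_num)).2
            calc r * 1 * |iteratedDeriv 2 (fun τ => Real.log (Dk k (ε * x) τ)) y| ≤ r * 1 * M := by gcongr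
              _ = 200 * M * (r / 200) := by ring
          · have := (b5 3 (by norm_num) (by norm_num)).2
            calc r * 1 * |iteratedDeriv 3 (fun τ => Real.log (Dk k (ε * x) τ)) y| ≤ r * 1 * M := by gcongr
              _ = 200 * M * (r / 200) := by ring
      have := OSC_out (fun x => ∫ τ : ℝ, G x τ) hinner' _ hin
      refine this.trans ?_
      have hr0 : 0 < r := by linarith
      have hlr : lam ≤ 3 * r := by
        rw [hlam, hc]
        have h3 := hE 1 0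
        calc ε * r * |k.1 1 0| ≤ 1 * r * 3 := by gcongr
          _ = 3 * r := by ring
      have e : 8 * B ^ 2 * M * (1 + 200 * M) ^ 2 / (r / 200) ^ 2 / 2 = 8 * B ^ 2 * M * (1 + 200 * M) ^ 2 * 200 ^ 2 / 2 / r ^ 2 := by
        field_simp
      rw [e, div_le_div_iff₀ (by positivity) (by positivity)]
      have h9 : lam ^ 2 ≤ 9 * r ^ 2 := by nlinarith
      have hK2 : 8 * B ^ 2 * M * (1 + 200 * M) ^ 2 * 200 ^ 2 / 2 ≤ 8 * B ^ 2 * M * (1 + 240 * M) ^ 2 * 240 ^ 2 := by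
        have h10 : 8 * B ^ 2 * M * (1 + 200 * M) ^ 2 * 200 ^ 2 ≤ 8 * B ^ 2 * M * (1 + 240 * M) ^ 2 * 240 ^ 2 := by gcongr <;> norm_num
        have h11 : 0 ≤ 8 * B ^ 2 * M * (1 + 200 * M) ^ 2 * 200 ^ 2 := by positivity
        linarith
      calc 8 * B ^ 2 * M * (1 + 200 * M) ^ 2 * 200 ^ 2 / 2 * lam ^ 2 ≤
            8 * B ^ 2 * M * (1 + 240 * M) ^ 2 * 240 ^ 2 * (9 * r ^ 2) := by gcongr
        _ = 8 * B ^ 2 * M * (1 + 240 * M) ^ 2 * 240 ^ 2 * 9 * r ^ 2 := by ring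
        _ ≤ K * r ^ 2 := by
          gcongr
          rw [hKdef]
          have : 0 ≤ B ^ 2 * M := by positivity
          linarith
  -- conclusion
  have hJ : ‖∫ τ : ℝ, ∫ x : ℝ, G x τ‖ ≤ (4 * K + 1) / (1 + lam) ^ 2 := by
    rw [le_div_iff₀ (by positivity)]
    by_cases hl : 1 < lam
    · have h1 := hJ1 hl
      rw [le_div_iff₀ (by positivity)] at h1
      have h2 : (1 + lam) ^ 2 ≤ 4 * lam ^ 2 := by nlinarith
      calc ‖∫ τ : ℝ, ∫ x : ℝ, G x τ‖ * (1 + lam) ^ 2 ≤ ‖∫ τ : ℝ, ∫ x : ℝ, G x τ‖ * (4 * lam ^ 2) := by gcongr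
        _ = 4 * (‖∫ τ : ℝ, ∫ x : ℝ, G x τ‖ * lam ^ 2) := by ring
        _ ≤ 4 * K := by linarith
        _ ≤ 4 * K + 1 := by linarith
    · push Not at hl
      have h2 : (1 + lam) ^ 2 ≤ 4 := by nlinarith
      have h3 : B ^ 2 * M ≤ K := by rw [hKdef]; linarith
      calc ‖∫ τ : ℝ, ∫ x : ℝ, G x τ‖ * (1 + lam) ^ 2 ≤ K * 4 := by
            gcongr
            exact hJ0.trans h3
        _ ≤ 4 * K + 1 := by linarith
  rw [hform', norm_mul, Complex.norm_real, Real.norm_eq_abs, abs_of_pos (Real.exp_pos _), ← hε, ← hc, ← hlam]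
  calc Real.exp (-(T / 2)) * ‖∫ τ : ℝ, ∫ x : ℝ, G x τ‖ ≤ Real.exp (-(T / 2)) * ((4 * K + 1) / (1 + lam) ^ 2) := by gcongr
    _ = (4 * K + 1) * Real.exp (-(T / 2)) / (1 + lam) ^ 2 := by ring


theorem OKB_bds {β : ℝ → ℝ} {M : ℝ} (h : SBM 2 M β) (x : ℝ) :
    |β x| ≤ M ∧ |deriv β x| ≤ M ∧ |deriv (deriv β) x| ≤ M := by
  refine ⟨?_, ?_, ?_⟩
  · have := h.bd 0 (by norm_num) x
    rwa [iteratedDeriv_zero] at this
  · have := h.bd 1 (by norm_num) x
    rwa [iteratedDeriv_one] at this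
  · have := h.bd 2 (by norm_num) x
    rwa [iteratedDeriv_succ, iteratedDeriv_one] at this

theorem OKB_num {B m : ℝ} (hB : 1 ≤ B) (hm : 1 ≤ m) :
    4 * (B ^ 2 * m + 8 * B ^ 2 * m * (1 + 240 * m) ^ 2 * 240 ^ 2 * 9) + 1 ≤
      (5 + 4 * 8 * 241 ^ 2 * 240 ^ 2 * 9) * (B ^ 2 * m ^ 3) := by
  have hB0 : 0 ≤ B := by linarith
  have hm0 : 0 ≤ m := by linarith
  have h1 : 1 ≤ B ^ 2 := one_le_pow₀ hB
  have h2 : m ≤ m ^ 3 := le_self_pow₀ hm (by norm_num)
  have h3 : 1 ≤ m ^ 3 := one_le_pow₀ hm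
  have h4 : B ^ 2 * m ≤ B ^ 2 * m ^ 3 := mul_le_mul_of_nonneg_left h2 (by positivity)
  have h5 : 1 ≤ B ^ 2 * m ^ 3 := by
    calc (1 : ℝ) = 1 * 1 := by ring
      _ ≤ B ^ 2 * m ^ 3 := mul_le_mul h1 h3 zero_le_one (by positivity)
  have h6 : (1 + 240 * m) ^ 2 ≤ (241 * m) ^ 2 := pow_le_pow_left₀ (by positivity) (by linarith) 2
  have h7 : 8 * B ^ 2 * m * (1 + 240 * m) ^ 2 * 240 ^ 2 * 9 ≤ 8 * B ^ 2 * m * (241 * m) ^ 2 * 240 ^ 2 * 9 := by
    gcongr
  have h8 : 8 * B ^ 2 * m * (241 * m) ^ 2 * 240 ^ 2 * 9 = 8 * 241 ^ 2 * 240 ^ 2 * 9 * (B ^ 2 * m ^ 3) := by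
    ring
  rw [h8] at h7
  calc 4 * (B ^ 2 * m + 8 * B ^ 2 * m * (1 + 240 * m) ^ 2 * 240 ^ 2 * 9) + 1 ≤
        4 * (B ^ 2 * m ^ 3 + 8 * 241 ^ 2 * 240 ^ 2 * 9 * (B ^ 2 * m ^ 3)) + B ^ 2 * m ^ 3 := by
        linarith
    _ = (5 + 4 * 8 * 241 ^ 2 * 240 ^ 2 * 9) * (B ^ 2 * m ^ 3) := by ring

theorem OKB_proof (hOAM : OAM_stmt) : OKB_stmt := by
  obtain ⟨Ka, hKa, hA⟩ := hOAM
  refine ⟨(5 + 4 * 8 * 241 ^ 2 * 240 ^ 2 * 9) * Ka ^ 3, ?_, ?_⟩
  · have : 1 ≤ Ka ^ 3 := one_le_pow₀ hKa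
    nlinarith
  intro β0 α0 β α M M' hM hM' hβ0 hα0 hβ hα T r k hT hr
  have hM2 : 1 ≤ M' ^ 2 := one_le_pow₀ hM'
  have hm : 1 ≤ Ka * M' ^ 2 := by
    calc (1 : ℝ) = 1 * 1 := by ring
      _ ≤ Ka * M' ^ 2 := mul_le_mul hKa hM2 zero_le_one (by linarith)
  have h1 := OKB_core OI2_proof GKF_proof hβ0.sb hα0.sb hβ.sb hα.sb (by linarith : 0 ≤ M)
    (by linarith : 0 < Ka * M' ^ 2) (OKB_bds hβ0) (OKB_bds hα0) (hA β α M' hM' hβ hα) hT hr (k := k)
  refine h1.trans ?_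
  have h2 := OKB_num hM hm
  have h3 : (5 + 4 * 8 * 241 ^ 2 * 240 ^ 2 * 9) * (M ^ 2 * (Ka * M' ^ 2) ^ 3) =
      (5 + 4 * 8 * 241 ^ 2 * 240 ^ 2 * 9) * Ka ^ 3 * M ^ 2 * M' ^ 6 := by ring
  rw [h3] at h2
  gcongr

end Pool.Agent.T1
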