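import Pool.Agent.helper47.T1.SpecE1

/-!
# Row t1:QFB of MP_07c750_an (change of the frame, interface form)
-/

set_option autoImplicit false

open scoped MatrixGroups ContDiff Topology UpperHalfPlane ComplexConjugate
open UpperHalfPlane MeasureTheory Filter Set

namespace Pool.Agent.T1

open Pool.Agent.RS Pool.Agent.MS

noncomputable section

theorem QFB_exp {r T c : ℝ} (hr : 1 ≤ r) (hc : 0 ≤ c) (hT : T ≤ 1 / 400 * Real.log r) :
    Real.exp (c * T) ≤ r ^ (c / 400) := by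
  rw [Real.rpow_def_of_pos (by linarith)]
  refine Real.exp_le_exp.2 ?_
  calc c * T ≤ c * (1 / 400 * Real.log r) := mul_le_mul_of_nonneg_left hT hc
    _ = Real.log r * (c / 400) := by ring

theorem QFB_key {X E r p c a k : ℝ} (hr : 1 ≤ r) (hE0 : 0 ≤ E) (hX : X ≤ r ^ p)
    (hE : E ≤ r ^ c) (h : p + c - a ≤ -k) : X * E * r ^ (-a) ≤ r ^ (-k) := by
  have hr0 : 0 < r := by linarith
  have h1 : X * E ≤ r ^ p * r ^ c :=
    mul_le_mul hX hE hE0 (Real.rpow_nonneg hr0.le _)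
  calc X * E * r ^ (-a) ≤ r ^ p * r ^ c * r ^ (-a) :=
        mul_le_mul_of_nonneg_right h1 (Real.rpow_nonneg hr0.le _)
    _ = r ^ (p + c - a) := by
        rw [← Real.rpow_add hr0, ← Real.rpow_add hr0]
        congr 1
    _ ≤ r ^ (-k) := Real.rpow_le_rpow_of_exponent_le hr h

theorem QFB_mono {J : ℕ} {M M' : ℝ} {β : ℝ → ℝ} (h : SBM J M β) (hM : M ≤ M') : SBM J M' β :=
  ⟨h.sb, fun j hj x => (h.bd j hj x).trans hM⟩

theorem QFB_proof (h1 : QE1_stmt) (h2 : QE3_stmt) (h3 : QE4_stmt) (h4 : QST_stmt) : QFB_stmt := by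
  intro M
  obtain ⟨K1, hK1, H1⟩ := h1
  obtain ⟨K3, hK3, H3⟩ := h2
  obtain ⟨K4, hK4, H4⟩ := h3
  have hM4 : 0 ≤ M ^ 4 := by positivity
  have hM2 : 0 ≤ M ^ 2 := by positivity
  set A : ℝ := (K1 + K3 + K4) * (M ^ 4 + M ^ 2 + 1) with hA
  have hA1 : 1 ≤ A := by
    rw [hA]
    nlinarith
  have a1 : K1 * M ^ 4 ≤ A := by
    rw [hA]
    nlinarith [mul_nonneg (by linarith : (0 : ℝ) ≤ K3 + K4) hM4, mul_nonneg (by linarith : (0 : ℝ) ≤ K1 + K3 + K4) hM2]
  have a2 : K3 * M ^ 4 ≤ A := by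
    rw [hA]
    nlinarith [mul_nonneg (by linarith : (0 : ℝ) ≤ K1 + K4) hM4, mul_nonneg (by linarith : (0 : ℝ) ≤ K1 + K3 + K4) hM2]
  have a3 : K4 * M ^ 4 ≤ A := by
    rw [hA]
    nlinarith [mul_nonneg (by linarith : (0 : ℝ) ≤ K1 + K3) hM4, mul_nonneg (by linarith : (0 : ℝ) ≤ K1 + K3 + K4) hM2]
  have a4 : K4 * M ^ 2 ≤ A := by
    rw [hA]
    nlinarith [mul_nonneg (by linarith : (0 : ℝ) ≤ K1 + K3) hM2, mul_nonneg (by linarith : (0 : ℝ) ≤ K1 + K3 + K4) hM4]
  refine ⟨max (K1 + K3 + K4) (A ^ (400 / 13 : ℝ)), 1 / 400, le_max_of_le_left (by linarith),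
    by norm_num, by norm_num, ?_⟩
  intro β α1 α2 hβ hα1 hα2 hBB Γ F r T φ hΓ hF hr hT0 hT hφ
  have hM : 0 ≤ M := (abs_nonneg _).trans (hβ.bd 0 (Nat.zero_le _) 0)
  have hr1 : K1 + K3 + K4 ≤ r := (le_max_left _ _).trans hr
  have hr2 : A ^ (400 / 13 : ℝ) ≤ r := (le_max_right _ _).trans hr
  have hrone : 1 ≤ r := by linarith
  have hr0 : 0 < r := by linarith
  have hAr : A ≤ r ^ (13 / 400 : ℝ) := by
    calc A = (A ^ (400 / 13 : ℝ)) ^ (13 / 400 : ℝ) := by
          rw [← Real.rpow_mul (by linarith)]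
          norm_num
      _ ≤ r ^ (13 / 400 : ℝ) := Real.rpow_le_rpow (Real.rpow_nonneg (by linarith) _) hr2 (by norm_num)
  have hnn : 0 ≤ nn F φ := by
    unfold nn
    exact integral_nonneg fun _ => by positivity
  have hTT : 1 + T ≤ Real.exp T := by
    have := Real.add_one_le_exp T
    linarith
  refine ⟨fun hint => ?_, fun hB1 hB2 => ⟨?_, ?_⟩⟩
  · have hM' : M ≤ M * Real.exp (5 * T) := le_mul_of_one_le_right hM (Real.one_le_exp (by linarith))
    have hb := H1 (st (-T) β) α1 α2 (M * Real.exp (5 * T)) (h4.1 β M T hβ hT0).1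
      (QFB_mono hα1 hM') (QFB_mono hα2 hM') hint Γ F r φ hΓ hF (by linarith) hφ
    refine hb.trans (mul_le_mul_of_nonneg_right ?_ hnn)
    have e1 : K1 * (M * Real.exp (5 * T)) ^ 4 = K1 * M ^ 4 * Real.exp (20 * T) := by
      rw [mul_pow, ← Real.exp_nat_mul]
      push_cast
      rw [show 4 * (5 * T) = 20 * T by ring]
      ring
    rw [e1]
    exact QFB_key hrone (Real.exp_pos _).le (a1.trans hAr)
      (QFB_exp hrone (by norm_num) hT) (by norm_num)
  · have hb := H3 β α1 α2 M T hβ hα1 hα2 hBB hB1 hB2 hT0 Γ F r φ hΓ hF (by linarith) hφ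
    refine hb.trans (mul_le_mul_of_nonneg_right ?_ hnn)
    have e1 : (1 + T) ^ 2 * Real.exp (20 * T) ≤ Real.exp (22 * T) := by
      have h5 : (1 + T) ^ 2 ≤ Real.exp T ^ 2 := pow_le_pow_left₀ (by linarith) hTT 2
      rw [← Real.exp_nat_mul] at h5
      calc (1 + T) ^ 2 * Real.exp (20 * T) ≤ Real.exp ((2 : ℕ) * T) * Real.exp (20 * T) :=
            mul_le_mul_of_nonneg_right h5 (Real.exp_pos _).le
        _ = Real.exp (22 * T) := by
            rw [← Real.exp_add]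
            push_cast
            congr 1
            ring
    rw [mul_assoc (K3 * M ^ 4)]
    exact QFB_key hrone (by positivity) (a2.trans hAr)
      (e1.trans (QFB_exp hrone (by norm_num) hT)) (by norm_num)
  · intro Ψ hΨ1 hΨ2 hΨ3
    have hc : K4 * M ^ 4 * Real.exp (20 * T) ≤ r ^ (1 / 8 : ℝ) := by
      have h5 := mul_le_mul (a3.trans hAr) (QFB_exp (c := 20) hrone (by norm_num) hT)
        (Real.exp_pos _).le (Real.rpow_nonneg hr0.le _)
      refine h5.trans ?_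
      rw [← Real.rpow_add hr0]
      exact Real.rpow_le_rpow_of_exponent_le hrone (by norm_num)
    have hb := H4 β α1 α2 M T hβ hα1 hα2 hBB hB1 hB2 hT0 Γ F r φ hΓ hF (by linarith) hc hφ Ψ hΨ1
      hΨ2 hΨ3
    refine hb.trans (mul_le_mul_of_nonneg_right ?_ hnn)
    have e1 : (1 + T) * Real.exp (10 * T) ≤ Real.exp (11 * T) := by
      calc (1 + T) * Real.exp (10 * T) ≤ Real.exp T * Real.exp (10 * T) :=
            mul_le_mul_of_nonneg_right hTT (Real.exp_pos _).le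
        _ = Real.exp (11 * T) := by
            rw [← Real.exp_add]
            congr 1
            ring
    rw [mul_assoc (K4 * M ^ 2)]
    exact QFB_key hrone (mul_nonneg (by linarith) (Real.exp_pos _).le) (a4.trans hAr)
      (e1.trans (QFB_exp hrone (by norm_num) hT)) (by norm_num)

end

end Pool.Agent.T1
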